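import Pool.Agent.MP_c20a26_lc.Thin

-- part MP_c20a26_lc.TwoStack
section

set_option autoImplicit false

namespace Pool.Agent.MP_c20a26_lc

open Sum Relation

/-- Rewriting over an arbitrary alphabet. -/
def Rw {α : Type} (P : Set (List α × List α)) (u v : List α) : Prop :=
  ∃ x y : List α, ∃ p ∈ P, u = x ++ p.1 ++ y ∧ v = x ++ p.2 ++ y

theorem grammar_of_rw {N : Type} (T : Finset ℕ) (P : Set (List (ℕ ⊕ N) × List (ℕ ⊕ N)))
    (hP : P.Finite) (s : N) (hT : ∀ p ∈ P, ∀ a, inl a ∈ p.1 ++ p.2 → a ∈ T)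
    (hnt : ∀ p ∈ P, ∃ n, inr n ∈ p.1) :
    ∃ G : Grammar, ∀ w, w ∈ G.lang ↔
      (∀ a ∈ w, a ∈ T) ∧ ReflTransGen (Rw P) [inr s] (w.map inl) := by
  classical
  have : Nonempty N := ⟨s⟩
  set N₀ : Set N := insert s {n | ∃ p ∈ P, inr n ∈ p.1 ++ p.2} with hN₀
  have hfin : N₀.Finite := by
    refine Set.Finite.insert _ ?_
    have : (⋃ p ∈ P, {x | x ∈ p.1 ++ p.2}).Finite :=
      hP.biUnion fun p _ => List.finite_toSet _
    refine (this.preimage Sum.inr_injective.injOn).subset ?_
    rintro n ⟨p, hp, hn⟩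
    exact Set.mem_biUnion hp hn
  obtain ⟨f, hf⟩ := Set.countable_iff_exists_injOn.1 hfin.countable
  set B := T.sup id + 1 with hB
  have hTB : ∀ a ∈ T, a < B := fun a ha => Nat.lt_succ_of_le (Finset.le_sup (f := id) ha)
  set enc : ℕ ⊕ N → ℕ := Sum.elim id fun n => B + f n with henc
  set dec : ℕ → ℕ ⊕ N := fun m => if m < B then inl m else inr (Function.invFunOn f N₀ (m - B))
    with hdec
  have d1 : ∀ a ∈ T, dec a = inl a := fun a ha => if_pos (hTB a ha)
  have d2 : ∀ n ∈ N₀, dec (enc (inr n)) = inr n := by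
    intro n hn
    simp only [hdec, henc, Sum.elim_inr]
    rw [if_neg (by omega), Nat.add_sub_cancel_left, hf.leftInvOn_invFunOn hn]
  have d3 : ∀ p ∈ P, ∀ x ∈ p.1 ++ p.2, dec (enc x) = x := by
    intro p hp x hx
    cases x with
    | inl a => exact d1 a (hT p hp a hx)
    | inr n => exact d2 n (Or.inr ⟨p, hp, hx⟩)
  have d4 : ∀ l : List (ℕ ⊕ N), (∀ x ∈ l, dec (enc x) = x) → (l.map enc).map dec = l := by
    intro l hl
    rw [List.map_map]
    conv_rhs => rw [← List.map_id l]
    exact List.map_congr_left hl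
  set V : Finset ℕ := T ∪ hfin.toFinset.image fun n => B + f n with hV
  have hV1 : ∀ p ∈ P, ∀ x ∈ p.1 ++ p.2, enc x ∈ V := by
    intro p hp x hx
    cases x with
    | inl a => exact Finset.mem_union_left _ (hT p hp a hx)
    | inr n =>
      exact Finset.mem_union_right _
        (Finset.mem_image_of_mem _ (hfin.mem_toFinset.2 (Or.inr ⟨p, hp, hx⟩)))
  have hnT : ∀ n, enc (inr n) ∉ T := fun n h => by
    have := hTB _ h
    simp only [henc, Sum.elim_inr] at this
    omega
  let G : Grammar :=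
    { V := V, T := T, P := hP.toFinset.image fun p => (p.1.map enc, p.2.map enc), S := enc (inr s)
      T_sub := Finset.subset_union_left
      S_mem := Finset.mem_union_right _
        (Finset.mem_image_of_mem _ (hfin.mem_toFinset.2 (Or.inl rfl)))
      S_not := hnT s
      lhs_mem := by
        intro p hp a ha
        obtain ⟨q, hq, rfl⟩ := Finset.mem_image.1 hp
        obtain ⟨x, hx, rfl⟩ := List.mem_map.1 ha
        exact hV1 q (hP.mem_toFinset.1 hq) x (by simp [hx])
      rhs_mem := by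
        intro p hp a ha
        obtain ⟨q, hq, rfl⟩ := Finset.mem_image.1 hp
        obtain ⟨x, hx, rfl⟩ := List.mem_map.1 ha
        exact hV1 q (hP.mem_toFinset.1 hq) x (by simp [hx])
      lhs_nt := by
        intro p hp
        obtain ⟨q, hq, rfl⟩ := Finset.mem_image.1 hp
        obtain ⟨n, hn⟩ := hnt q (hP.mem_toFinset.1 hq)
        exact ⟨_, List.mem_map_of_mem hn, hnT n⟩ }
  have fw : ∀ u v, ReflTransGen (Rw P) u v → ReflTransGen G.Step (u.map enc) (v.map enc) := by
    intro u v h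
    induction h with
    | refl => exact ReflTransGen.refl
    | tail _ hs ih =>
      obtain ⟨x, y, p, hp, rfl, rfl⟩ := hs
      exact ih.tail ⟨x.map enc, y.map enc, _, Finset.mem_image_of_mem _ (hP.mem_toFinset.2 hp),
        by simp, by simp⟩
  have bw : ∀ u v, ReflTransGen G.Step u v → ReflTransGen (Rw P) (u.map dec) (v.map dec) := by
    intro u v h
    induction h with
    | refl => exact ReflTransGen.refl
    | tail _ hs ih =>
      obtain ⟨x, y, p, hp, rfl, rfl⟩ := hs
      obtain ⟨q, hq, rfl⟩ := Finset.mem_image.1 hp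
      have hq' := hP.mem_toFinset.1 hq
      refine ih.tail ⟨x.map dec, y.map dec, q, hq', ?_, ?_⟩
      · rw [List.map_append, List.map_append, d4 _ fun x hx => d3 q hq' x (by simp [hx])]
      · rw [List.map_append, List.map_append, d4 _ fun x hx => d3 q hq' x (by simp [hx])]
  refine ⟨G, fun w => and_congr_right fun hw => ⟨fun h => ?_, fun h => ?_⟩⟩
  · have := bw _ _ h
    rwa [show [G.S].map dec = [inr s] from congrArg (fun x => [x]) (d2 s (Or.inl rfl)),
      List.map_congr_left fun a ha => d1 a (hw a ha)] at this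
  · have := fw _ _ h
    rwa [List.map_map, show enc ∘ inl = id from rfl, List.map_id] at this

section TS
variable {Z Q : Type}

abbrev TC (Z Q : Type) := List (ℕ ⊕ Z) × Q × List (ℕ ⊕ Z)

/-- One step of a two-stack machine. -/
def TS (Rs : Set (TC Z Q × TC Z Q)) (c c' : TC Z Q) : Prop :=
  ∃ r ∈ Rs, ∃ A B, c = (r.1.1 ++ A, r.1.2.1, r.1.2.2 ++ B) ∧ c' = (r.2.1 ++ A, r.2.2.1, r.2.2.2 ++ B)

def emb : ℕ ⊕ Z → ℕ ⊕ (Z ⊕ Q) := Sum.map id inl

def word (c : TC Z Q) : List (ℕ ⊕ (Z ⊕ Q)) :=
  c.1.reverse.map emb ++ inr (inr c.2.1) :: c.2.2.map emb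

theorem emb_ne (a : ℕ ⊕ Z) (q : Q) : emb a ≠ inr (inr q) := by
  cases a <;> simp [emb]

theorem emb_inj : Function.Injective (emb : ℕ ⊕ Z → ℕ ⊕ (Z ⊕ Q)) :=
  Sum.map_injective.2 ⟨Function.injective_id, Sum.inl_injective⟩

theorem parse (y : List (ℕ ⊕ Z)) (q q' : Q) (v : List (ℕ ⊕ (Z ⊕ Q))) :
    ∀ (x : List (ℕ ⊕ Z)) (u : List (ℕ ⊕ (Z ⊕ Q))),
      x.map emb ++ inr (inr q) :: y.map emb = u ++ inr (inr q') :: v →
      u = x.map emb ∧ q = q' ∧ v = y.map emb
  | [], [], h => by simpa [eq_comm] using h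
  | [], b :: u, h => by
    simp only [List.map_nil, List.nil_append, List.cons_append, List.cons.injEq] at h
    have : inr (inr q') ∈ y.map emb := by rw [h.2]; simp
    obtain ⟨a, -, ha⟩ := List.mem_map.1 this
    exact absurd ha (emb_ne _ _)
  | a :: x, [], h => by
    simp only [List.map_cons, List.cons_append, List.nil_append, List.cons.injEq] at h
    exact absurd h.1 (emb_ne _ _)
  | a :: x, b :: u, h => by
    simp only [List.map_cons, List.cons_append, List.cons.injEq] at h
    obtain ⟨h1, h2⟩ := parse y q q' v x u h.2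
    exact ⟨by rw [h1, ← h.1]; rfl, h2⟩

theorem grammar_of_ts (T : Finset ℕ) (Rs : Set (TC Z Q × TC Z Q)) (hR : Rs.Finite) (q₀ qf : Q)
    (hT : ∀ r ∈ Rs, ∀ a, inl a ∈ r.1.1 ++ r.1.2.2 ++ r.2.1 ++ r.2.2.2 → a ∈ T) :
    ∃ G : Grammar, ∀ w, w ∈ G.lang ↔ (∀ a ∈ w, a ∈ T) ∧
      ∃ A B, ReflTransGen (TS Rs) ([], q₀, []) (A, qf, B) ∧ A.reverse ++ B = w.map inl := by
  set P : Set (List (ℕ ⊕ (Z ⊕ Q)) × List (ℕ ⊕ (Z ⊕ Q))) :=
    insert ([inr (inr qf)], []) ((fun r => (word r.1, word r.2)) '' Rs) with hP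
  have hw : ∀ (c : TC Z Q) a, inl a ∈ word c → inl a ∈ c.1 ∨ inl a ∈ c.2.2 := by
    intro c a h
    have : ∀ l : List (ℕ ⊕ Z), (inl a : ℕ ⊕ (Z ⊕ Q)) ∈ l.map emb → inl a ∈ l := by
      intro l hl
      obtain ⟨x, hx, e⟩ := List.mem_map.1 hl
      have e' : x = inl a := emb_inj (Q := Q) e
      rwa [← e']
    simp only [word, List.mem_append, List.mem_cons, reduceCtorEq, false_or] at h
    exact h.imp (fun h => List.mem_reverse.1 (this _ h)) (this _)
  obtain ⟨G, hG⟩ := grammar_of_rw T P ((hR.image _).insert _) (inr q₀) (by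
      rintro p (rfl | ⟨r, hr, rfl⟩) a ha
      · simp at ha
      · refine hT r hr a ?_
        simp only [List.mem_append] at ha ⊢
        rcases ha with ha | ha <;> rcases hw _ _ ha with h | h <;> simp [h])
    (by
      rintro p (rfl | ⟨r, hr, rfl⟩)
      · exact ⟨_, List.mem_singleton_self _⟩
      · exact ⟨inr r.1.2.1, by simp [word]⟩)
  refine ⟨G, fun w => (hG w).trans (and_congr_right fun _ => ⟨fun h => ?_, ?_⟩)⟩
  · have inv : ∀ z, ReflTransGen (Rw P) [inr (inr q₀)] z →
        (∃ c, ReflTransGen (TS Rs) ([], q₀, []) c ∧ z = word c) ∨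
        ∃ A B, ReflTransGen (TS Rs) ([], q₀, []) (A, qf, B) ∧ z = (A.reverse ++ B).map emb := by
      intro z hz
      induction hz with
      | refl => exact Or.inl ⟨_, ReflTransGen.refl, rfl⟩
      | tail _ hs ih =>
        obtain ⟨x, y, p, hp, rfl, rfl⟩ := hs
        rcases ih with ⟨⟨A, q, B⟩, h1, h2⟩ | ⟨A, B, -, h2⟩
        · rcases hp with rfl | ⟨r, hr, rfl⟩
          · obtain ⟨rfl, rfl, rfl⟩ := parse B q qf y A.reverse x (by simpa [word] using h2.symm)
            exact Or.inr ⟨A, B, h1, by simp⟩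
          · obtain ⟨e1, rfl, e3⟩ := parse B q r.1.2.1 (r.1.2.2.map emb ++ y) A.reverse
              (x ++ r.1.1.reverse.map emb) (by simpa [word] using h2.symm)
            obtain ⟨A₀, A₁, a1, rfl, a3⟩ := List.map_eq_append_iff.1 e1.symm
            obtain ⟨B₁, B₀, rfl, b2, rfl⟩ := List.map_eq_append_iff.1 e3.symm
            have a4 := List.map_injective_iff.2 emb_inj a3
            have b4 := List.map_injective_iff.2 emb_inj b2
            subst a4 b4
            have a5 : A = r.1.1 ++ A₀.reverse := by simpa using congrArg List.reverse a1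
            subst a5
            exact Or.inl ⟨_, h1.tail ⟨r, hr, A₀.reverse, B₀, rfl, rfl⟩, by simp [word]⟩
        · exfalso
          have : ∃ q, (inr (inr q) : ℕ ⊕ (Z ⊕ Q)) ∈ p.1 := by
            rcases hp with rfl | ⟨r, hr, rfl⟩
            · exact ⟨_, List.mem_singleton_self _⟩
            · exact ⟨r.1.2.1, by simp [word]⟩
          obtain ⟨q, hq⟩ := this
          have : (inr (inr q) : ℕ ⊕ (Z ⊕ Q)) ∈ (A.reverse ++ B).map emb := by
            rw [← h2]; simp [hq]
          obtain ⟨a, -, ha⟩ := List.mem_map.1 this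
          exact emb_ne _ _ ha
    rcases inv _ h with ⟨c, -, h2⟩ | ⟨A, B, h1, h2⟩
    · have : (inr (inr c.2.1) : ℕ ⊕ (Z ⊕ Q)) ∈ w.map inl := by rw [h2]; simp [word]
      simp at this
    · refine ⟨A, B, h1, List.map_injective_iff.2 (emb_inj (Q := Q)) ?_⟩
      rw [← h2, List.map_map]
      rfl
  · rintro ⟨A, B, h1, h2⟩
    have fw : ∀ c, ReflTransGen (TS Rs) ([], q₀, []) c →
        ReflTransGen (Rw P) [inr (inr q₀)] (word c) := by
      intro c hc
      induction hc with
      | refl => exact ReflTransGen.refl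
      | tail _ hs ih =>
        obtain ⟨r, hr, A, B, rfl, rfl⟩ := hs
        exact ih.tail ⟨A.reverse.map emb, B.map emb, _, Or.inr ⟨r, hr, rfl⟩, by simp [word],
          by simp [word]⟩
    refine (fw _ h1).tail ⟨A.reverse.map emb, B.map emb, _, Or.inl rfl, by simp [word], ?_⟩
    rw [List.append_nil, ← List.map_append, h2, List.map_map]
    rfl

end TS

section TM
open Turing

inductive Ctl (Λ : Type)
  | start
  | gen
  | st (q : Λ)
  | er
  | fin

variable {Γ Λ : Type} [Inhabited Γ] [Inhabited Λ]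

def tp (L : List Γ) : List (ℕ ⊕ Option Γ) := L.map fun a => inr (some a)

omit [Inhabited Γ] in
@[simp] theorem tp_nil : tp ([] : List Γ) = [] := rfl
omit [Inhabited Γ] in
@[simp] theorem tp_cons (a : Γ) (L : List Γ) : tp (a :: L) = inr (some a) :: tp L := rfl
omit [Inhabited Γ] in
@[simp] theorem tp_append (L L' : List Γ) : tp (L ++ L') = tp L ++ tp L' := List.map_append

inductive TMR (T : Finset ℕ) (M : TM0.Machine Γ Λ) (S : Set Λ) (h : ℕ → List Γ) (φ : Γ → Γ) :
    TC (Option Γ) (Ctl Λ) → TC (Option Γ) (Ctl Λ) → Prop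
  | start : TMR T M S h φ ([], .start, []) ([], .gen, [inr none])
  | gen {a : ℕ} : a ∈ T → TMR T M S h φ ([], .gen, []) ([inl a], .gen, tp (h a))
  | go (a : Γ) : TMR T M S h φ ([], .gen, [inr (some a)]) ([inr none], .st default, [inr (some (φ a))])
  | go' : TMR T M S h φ ([], .gen, [inr none])
      ([inr none], .st default, [inr (some (φ default)), inr none])
  | padR {q : Λ} : q ∈ S → TMR T M S h φ ([], .st q, [inr none])
      ([], .st q, [inr (some default), inr none])
  | padL {q : Λ} : q ∈ S → TMR T M S h φ ([inr none], .st q, [])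
      ([inr (some default), inr none], .st q, [])
  | write {q q' : Λ} {a b : Γ} : q ∈ S → M q a = some (q', .write b) →
      TMR T M S h φ ([], .st q, [inr (some a)]) ([], .st q', [inr (some b)])
  | right {q q' : Λ} {a : Γ} : q ∈ S → M q a = some (q', .move Dir.right) →
      TMR T M S h φ ([], .st q, [inr (some a)]) ([inr (some a)], .st q', [])
  | left {q q' : Λ} {a c : Γ} : q ∈ S → M q a = some (q', .move Dir.left) →
      TMR T M S h φ ([inr (some c)], .st q, [inr (some a)]) ([], .st q', [inr (some c), inr (some a)])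
  | halt {q : Λ} {a : Γ} : q ∈ S → M q a = none →
      TMR T M S h φ ([], .st q, [inr (some a)]) ([], .er, [])
  | erL (c : Γ) : TMR T M S h φ ([inr (some c)], .er, []) ([], .er, [])
  | erR (c : Γ) : TMR T M S h φ ([], .er, [inr (some c)]) ([], .er, [])
  | fin : TMR T M S h φ ([inr none], .er, [inr none]) ([], .fin, [])

variable (T : Finset ℕ) (M : TM0.Machine Γ Λ) (h : ℕ → List Γ) (φ : Γ → Γ)

def inp (v : List ℕ) : List Γ := φ (v.flatMap h).headI :: (v.flatMap h).tail

def TInv : TC (Option Γ) (Ctl Λ) → Prop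
  | (A, .start, B) => A = [] ∧ B = []
  | (A, .gen, B) => ∃ v : List ℕ, A = v.map inl ∧ B = tp (v.flatMap h) ++ [inr none]
  | (A, .st q, B) => ∃ (v : List ℕ) (L R : List Γ), A = tp L ++ inr none :: v.map inl ∧
      B = tp R ++ [inr none] ∧ TM0.Reaches M (TM0.init (inp h φ v)) ⟨q, Tape.mk₂ L R⟩
  | (A, .er, B) => ∃ (v : List ℕ) (L R : List Γ), A = tp L ++ inr none :: v.map inl ∧
      B = tp R ++ [inr none] ∧ (TM0.eval M (inp h φ v)).Dom
  | (A, .fin, B) => ∃ v : List ℕ, A = v.map inl ∧ B = [] ∧ (TM0.eval M (inp h φ v)).Dom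

omit [Inhabited Γ] in
theorem tp_some {L : List Γ} {a : Γ} {X B : List (ℕ ⊕ Option Γ)}
    (e : inr (some a) :: B = tp L ++ inr none :: X) : ∃ L', L = a :: L' ∧ B = tp L' ++ inr none :: X := by
  cases L with
  | nil => simp at e
  | cons b L =>
    simp only [tp_cons, List.cons_append, List.cons.injEq, inr.injEq, Option.some.injEq] at e
    exact ⟨L, by rw [e.1], e.2⟩

omit [Inhabited Γ] in
theorem tp_none {L : List Γ} {X B : List (ℕ ⊕ Option Γ)}
    (e : inr none :: B = tp L ++ inr none :: X) : L = [] ∧ B = X := by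
  cases L with
  | nil => simpa using e
  | cons b L => simp at e

theorem blank_pad : ListBlank.mk [(default : Γ)] = ListBlank.mk [] :=
  ListBlank.cons_head_tail (ListBlank.mk [])

theorem tinv_step {S : Set Λ} {c c' : TC (Option Γ) (Ctl Λ)}
    (hs : TS {r | TMR T M S h φ r.1 r.2} c c') (hc : TInv M h φ c) : TInv M h φ c' := by
  obtain ⟨⟨r₁, r₂⟩, hr, A, B, rfl, rfl⟩ := hs
  have hr : TMR T M S h φ r₁ r₂ := hr
  cases hr with
  | start =>
    obtain ⟨rfl, rfl⟩ := hc
    exact ⟨[], rfl, rfl⟩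
  | @gen a _ =>
    obtain ⟨v, rfl, rfl⟩ := hc
    exact ⟨a :: v, rfl, by simp⟩
  | go a =>
    obtain ⟨v, rfl, e⟩ := hc
    obtain ⟨L', e1, rfl⟩ := tp_some e
    refine ⟨v, [], φ a :: L', rfl, rfl, ?_⟩
    rw [inp, e1]
    exact ReflTransGen.refl
  | go' =>
    obtain ⟨v, rfl, e⟩ := hc
    obtain ⟨e1, rfl⟩ := tp_none e
    refine ⟨v, [], [φ default], rfl, rfl, ?_⟩
    rw [inp, e1]
    exact ReflTransGen.refl
  | padR =>
    obtain ⟨v, L, R, rfl, e, hr⟩ := hc
    obtain ⟨rfl, rfl⟩ := tp_none e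
    refine ⟨v, L, [default], rfl, rfl, ?_⟩
    rwa [Tape.mk₂, blank_pad]
  | padL =>
    obtain ⟨v, L, R, e, rfl, hr⟩ := hc
    obtain ⟨rfl, rfl⟩ := tp_none e
    refine ⟨v, [default], R, rfl, rfl, ?_⟩
    rwa [Tape.mk₂, blank_pad]
  | @write q q' a b _ hM =>
    obtain ⟨v, L, R, rfl, e, hr⟩ := hc
    obtain ⟨R', rfl, rfl⟩ := tp_some e
    refine ⟨v, L, b :: R', rfl, rfl, hr.tail ?_⟩
    simp [TM0.step, Tape.mk₂, hM]
  | @right q q' a _ hM =>
    obtain ⟨v, L, R, rfl, e, hr⟩ := hc
    obtain ⟨R', rfl, rfl⟩ := tp_some e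
    refine ⟨v, a :: L, R', rfl, rfl, hr.tail ?_⟩
    simp [TM0.step, Tape.mk₂, hM]
  | @left q q' a c _ hM =>
    obtain ⟨v, L, R, e', e, hr⟩ := hc
    obtain ⟨R', rfl, rfl⟩ := tp_some e
    obtain ⟨L', rfl, rfl⟩ := tp_some e'
    refine ⟨v, L', c :: a :: R', rfl, rfl, hr.tail ?_⟩
    simp [TM0.step, Tape.mk₂, hM]
  | @halt q a _ hM =>
    obtain ⟨v, L, R, rfl, e, hr⟩ := hc
    obtain ⟨R', rfl, rfl⟩ := tp_some e
    refine ⟨v, L, R', rfl, rfl, ?_⟩
    exact Part.dom_iff_mem.2 ⟨_, Part.mem_map _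
      (StateTransition.mem_eval.2 ⟨hr, by simp [TM0.step, Tape.mk₂, hM]⟩)⟩
  | erL c =>
    obtain ⟨v, L, R, e, rfl, hr⟩ := hc
    obtain ⟨L', rfl, rfl⟩ := tp_some e
    exact ⟨v, L', R, rfl, rfl, hr⟩
  | erR c =>
    obtain ⟨v, L, R, rfl, e, hr⟩ := hc
    obtain ⟨R', rfl, rfl⟩ := tp_some e
    exact ⟨v, L, R', rfl, rfl, hr⟩
  | fin =>
    obtain ⟨v, L, R, e', e, hr⟩ := hc
    obtain ⟨rfl, rfl⟩ := tp_none e
    obtain ⟨rfl, rfl⟩ := tp_none e'
    exact ⟨v, rfl, rfl, hr⟩

variable {T M h φ}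

theorem ts_one {S : Set Λ} {r₁ r₂ : TC (Option Γ) (Ctl Λ)} (hr : TMR T M S h φ r₁ r₂)
    (A B : List (ℕ ⊕ Option Γ)) : TS {r | TMR T M S h φ r.1 r.2}
      (r₁.1 ++ A, r₁.2.1, r₁.2.2 ++ B) (r₂.1 ++ A, r₂.2.1, r₂.2.2 ++ B) :=
  ⟨(r₁, r₂), hr, A, B, rfl, rfl⟩

theorem ts_complete {S : Set Λ} (hS : TM0.Supports M S) (v : List ℕ) (hv : ∀ a ∈ v, a ∈ T)
    (hd : (TM0.eval M (inp h φ v)).Dom) :
    ReflTransGen (TS {r | TMR T M S h φ r.1 r.2}) ([], .start, []) (v.map inl, .fin, []) := by
  set X : List (ℕ ⊕ Option Γ) := inr none :: v.map inl with hX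
  have g1 : ∀ v : List ℕ, (∀ a ∈ v, a ∈ T) → ReflTransGen (TS {r | TMR T M S h φ r.1 r.2})
      ([], .start, []) (v.map inl, .gen, tp (v.flatMap h) ++ [inr none]) := by
    intro v hv
    induction v with
    | nil => exact ReflTransGen.single (ts_one TMR.start [] [])
    | cons a v ih =>
      have := (ih fun b hb => hv b (by simp [hb])).tail (ts_one (TMR.gen (hv a (by simp))) _ _)
      simpa using this
  have g2 : ReflTransGen (TS {r | TMR T M S h φ r.1 r.2})
      ([], .start, []) (tp [] ++ X, .st default, tp (inp h φ v) ++ [inr none]) := by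
    have := g1 v hv
    unfold inp
    cases e : v.flatMap h with
    | nil =>
      rw [e] at this
      exact this.tail (ts_one TMR.go' _ [])
    | cons a l =>
      rw [e] at this
      exact this.tail (ts_one (TMR.go a) _ _)
  have pad : ∀ q ∈ S, ∀ L R : List Γ, ∃ c L' a R', Tape.mk₂ L R = Tape.mk₂ (c :: L') (a :: R') ∧
      ReflTransGen (TS {r | TMR T M S h φ r.1 r.2}) (tp L ++ X, .st q, tp R ++ [inr none])
        (tp (c :: L') ++ X, .st q, tp (a :: R') ++ [inr none]) := by
    intro q hq L R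
    cases L with
    | nil =>
      cases R with
      | nil =>
        exact ⟨default, [], default, [], by simp only [Tape.mk₂, blank_pad],
          (ReflTransGen.single (ts_one (TMR.padL hq) _ _)).tail (ts_one (TMR.padR hq) _ [])⟩
      | cons a R =>
        exact ⟨default, [], a, R, by simp only [Tape.mk₂, blank_pad],
          ReflTransGen.single (ts_one (TMR.padL hq) _ _)⟩
    | cons c L =>
      cases R with
      | nil =>
        exact ⟨c, L, default, [], by simp only [Tape.mk₂, blank_pad],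
          ReflTransGen.single (ts_one (TMR.padR hq) _ [])⟩
      | cons a R => exact ⟨c, L, a, R, rfl, ReflTransGen.refl⟩
  have g3 : ∀ c, TM0.Reaches M (TM0.init (inp h φ v)) c → c.q ∈ S ∧ ∃ L R, c.Tape = Tape.mk₂ L R ∧
      ReflTransGen (TS {r | TMR T M S h φ r.1 r.2}) ([], .start, [])
        (tp L ++ X, .st c.q, tp R ++ [inr none]) := by
    intro c hc
    induction hc with
    | refl => exact ⟨hS.1, [], _, rfl, g2⟩
    | @tail c c' _ hs ih =>
      obtain ⟨hq, L, R, e, hr⟩ := ih
      refine ⟨TM0.step_supports M hS hs hq, ?_⟩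
      obtain ⟨q, t⟩ := c
      obtain ⟨c, L', a, R', e', hr'⟩ := pad q hq L R
      have e'' : t = Tape.mk₂ (c :: L') (a :: R') := e.trans e'
      subst e''
      obtain ⟨⟨q', s⟩, hM, rfl⟩ := Option.map_eq_some_iff.1 hs
      have hM : M q a = some (q', s) := hM
      rcases s with (_ | _) | b
      · exact ⟨L', c :: a :: R', by simp [Tape.mk₂],
          (hr.trans hr').tail (ts_one (TMR.left hq hM) _ _)⟩
      · exact ⟨a :: c :: L', R', by simp [Tape.mk₂],
          (hr.trans hr').tail (ts_one (TMR.right hq hM) _ _)⟩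
      · exact ⟨c :: L', b :: R', by simp [Tape.mk₂],
          (hr.trans hr').tail (ts_one (TMR.write hq hM) _ _)⟩
  have g4 : ∀ L R : List Γ, ReflTransGen (TS {r | TMR T M S h φ r.1 r.2})
      (tp L ++ X, .er, tp R ++ [inr none]) (v.map inl, .fin, []) := by
    intro L R
    induction L with
    | nil =>
      induction R with
      | nil => exact ReflTransGen.single (ts_one TMR.fin _ [])
      | cons a R ih => exact ReflTransGen.head (ts_one (TMR.erR a) _ _) ih
    | cons c L ih => exact ReflTransGen.head (ts_one (TMR.erL c) _ _) ih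
  obtain ⟨o, ho⟩ := Part.dom_iff_mem.1 hd
  obtain ⟨⟨q, t⟩, hc, -⟩ := (Part.mem_map_iff _).1 ho
  obtain ⟨h1, h2⟩ := StateTransition.mem_eval.1 hc
  obtain ⟨hq, L, R, e, hr⟩ := g3 _ h1
  obtain ⟨c, L', a, R', e', hr'⟩ := pad q hq L R
  have e'' : t = Tape.mk₂ (c :: L') (a :: R') := e.trans e'
  subst e''
  have hM : M q a = none := Option.map_eq_none_iff.1 h2
  exact ((hr.trans hr').tail (ts_one (TMR.halt hq hM) _ _)).trans (g4 (c :: L') R')

theorem grammar_of_tm [Finite Γ] (T : Finset ℕ) (M : TM0.Machine Γ Λ) {S : Set Λ} (hS : TM0.Supports M S)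
    (hSf : S.Finite) (h : ℕ → List Γ) (φ : Γ → Γ) :
    ∃ G : Grammar, ∀ w, w ∈ G.lang ↔
      (∀ a ∈ w, a ∈ T) ∧ (TM0.eval M (inp h φ w.reverse)).Dom := by
  set K := T.sup (fun a => (h a).length) + 2 with hK
  set Zs : Set (ℕ ⊕ Option Γ) := inl '' (T : Set ℕ) ∪ Set.range inr with hZs
  have hZ : Zs.Finite := (T.finite_toSet.image _).union (Set.finite_range _)
  set Qs : Set (Ctl Λ) := {.start, .gen, .er, .fin} ∪ Ctl.st '' S with hQs
  have hQ : Qs.Finite := (Set.toFinite _).union (hSf.image _)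
  set Ls : Set (List (ℕ ⊕ Option Γ)) := {l | l.length ≤ K ∧ ∀ a ∈ l, a ∈ Zs} with hLs
  have hL : Ls.Finite := finite_lists hZ K
  have key : ∀ r₁ r₂, TMR T M S h φ r₁ r₂ → r₁ ∈ Ls ×ˢ Qs ×ˢ Ls ∧ r₂ ∈ Ls ×ˢ Qs ×ˢ Ls := by
    intro r₁ r₂ hr
    have h0 := hS.1
    cases hr with
    | @gen a ha =>
      have : (h a).length ≤ T.sup (fun a => (h a).length) :=
        Finset.le_sup (f := fun a => (h a).length) ha
      simp only [hLs, hQs, hZs, hK, tp]
      simp [ha]
      omega
    | write hq hM => have := hS.2 hM hq; simp [*]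
    | right hq hM => have := hS.2 hM hq; simp [*]
    | left hq hM => have := hS.2 hM hq; simp [*]
    | _ => simp [*]
  obtain ⟨G, hG⟩ := grammar_of_ts T {r | TMR T M S h φ r.1 r.2}
    (((hL.prod (hQ.prod hL)).prod (hL.prod (hQ.prod hL))).subset fun r hr => key _ _ hr)
    Ctl.start Ctl.fin (by
      intro r hr a ha
      obtain ⟨⟨k1, -, k2⟩, k3, -, k4⟩ := key _ _ hr
      have : inl a ∈ Zs := by
        simp only [List.mem_append] at ha
        rcases ha with ((ha | ha) | ha) | ha
        exacts [k1.2 _ ha, k2.2 _ ha, k3.2 _ ha, k4.2 _ ha]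
      simpa [hZs] using this)
  refine ⟨G, fun w => (hG w).trans (and_congr_right fun hw => ⟨?_, fun hd => ?_⟩)⟩
  · rintro ⟨A, B, h1, h2⟩
    have : ∀ c, ReflTransGen (TS {r | TMR T M S h φ r.1 r.2}) ([], .start, []) c →
        TInv M h φ c := by
      intro c hc
      induction hc with
      | refl => exact ⟨rfl, rfl⟩
      | tail _ hs ih => exact tinv_step T M h φ hs ih
    obtain ⟨v, rfl, rfl, hd⟩ := this _ h1
    rw [List.append_nil, ← List.map_reverse] at h2
    rw [← List.map_injective_iff.2 Sum.inl_injective h2, List.reverse_reverse]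
    exact hd
  · exact ⟨_, _, ts_complete hS w.reverse (by simpa using hw) hd, by simp⟩

end TM

end Pool.Agent.MP_c20a26_lc

end

-- part MP_c20a26_lc.RE
section

set_option autoImplicit false

namespace Pool.Agent.MP_c20a26_lc

open Turing Turing.ToPartrec

theorem fix_loop {body : Code} {g : ℕ → ℕ → ℕ}
    (h1 : ∀ acc a rest, body.eval (acc :: a :: rest) = Part.some (a :: g acc a :: rest))
    (h2 : ∀ acc, body.eval [acc] = Part.some [0, acc]) :
    ∀ (w : List ℕ) (acc : ℕ), (Code.fix body).eval (acc :: w.map Nat.succ) =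
      Part.some [w.foldl (fun acc a => g acc (a + 1)) acc]
  | [], acc => by
    rw [Part.eq_some_iff, Code.fix_eval]
    exact PFun.mem_fix_iff.2 (Or.inl (by simp [h2]))
  | a :: w, acc => by
    have ih := fix_loop h1 h2 w (g acc (a + 1))
    rw [Part.eq_some_iff, Code.fix_eval] at ih ⊢
    exact PFun.mem_fix_iff.2 (Or.inr ⟨_, by simp [h1], ih⟩)

theorem foldl_encode (w : List ℕ) : ∀ l : List ℕ,
    w.foldl (fun acc a => Nat.pair a acc + 1) (Encodable.encode l) =
      Encodable.encode (w.reverse ++ l) := by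
  induction w with
  | nil => intro l; rfl
  | cons a w ih =>
    intro l
    have := ih (a :: l)
    rw [Encodable.encode_list_cons] at this
    simpa using this

theorem exists_code_re {L : Set (List ℕ)} (hL : REPred fun w : List ℕ => w ∈ L) :
    ∃ c : Code, ∀ w : List ℕ, (c.eval (w.map Nat.succ)).Dom ↔ w ∈ L := by
  set F : ℕ →. ℕ := fun n => (Part.assert (((Encodable.decode (α := List ℕ) n).getD []).reverse ∈ L)
    fun _ => Part.some ()).map fun _ => 0 with hF
  have hFp : Partrec F := by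
    have h1 : Computable fun n : ℕ => ((Encodable.decode (α := List ℕ) n).getD []).reverse :=
      (Primrec.list_reverse.comp (Primrec.option_getD.comp Primrec.decode
        (Primrec.const []))).to_comp
    exact (Partrec.comp hL h1).map (Computable.const 0).to₂
  obtain ⟨cf, hcf⟩ := Code.exists_code (Nat.Partrec'.part_iff₁.2 hFp)
  set g : ℕ → ℕ → ℕ := fun acc a => if a = 0 then acc else Nat.pair (a - 1) acc + 1 with hg
  have hgp : Primrec₂ g :=
    Primrec.ite (Primrec.eq.comp Primrec.snd (Primrec.const 0)) Primrec.fst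
      (Primrec.succ.comp (Primrec₂.natPair.comp (Primrec.pred.comp Primrec.snd) Primrec.fst))
  obtain ⟨cg, hcg⟩ := Code.exists_code
    (Nat.Partrec'.part_iff₂ (f := fun a b => Part.some (g a b)).2 hgp.to_comp.partrec₂)
  have e1 : ∀ a b, cg.eval [a, b] = Part.some [g a b] := fun a b => by
    simpa [List.Vector.head, List.Vector.tail] using hcg ⟨[a, b], rfl⟩
  have e2 : ∀ a, cf.eval [a] = (F a).map fun x => [x] := fun a => hcf ⟨[a], rfl⟩
  set body : Code := Code.cons Code.tail (Code.cons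
    (Code.comp cg (Code.cons Code.id (Code.cons Code.tail Code.nil)))
    (Code.comp Code.tail Code.tail)) with hbody
  have hl := fix_loop (body := body) (g := g) (fun acc a rest => by simp [hbody, e1])
    (fun acc => by simp [hbody, e1, hg])
  refine ⟨Code.comp cf (Code.comp (Code.fix body) Code.zero'), fun w => ?_⟩
  have e3 : (Code.comp cf (Code.comp (Code.fix body) Code.zero')).eval (w.map Nat.succ) =
      cf.eval [Encodable.encode w.reverse] := by
    have := foldl_encode w []
    rw [List.append_nil] at this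
    rw [Code.comp_eval, Code.comp_eval, Code.zero'_eval]
    simp only [Part.pure_eq_some, Part.bind_eq_bind, Part.bind_some, hl]
    rw [← this]
    simp [hg]
  rw [e3, e2]
  simp [hF, Part.assert]

theorem trList_flatMap (w : List ℕ) : PartrecToTM2.trList (w.map Nat.succ) =
    w.flatMap fun a => PartrecToTM2.trNat (a + 1) ++ [PartrecToTM2.Γ'.cons] := by
  induction w with
  | nil => rfl
  | cons a w ih => simp [ih]

theorem grammar_of_re {L : Set (List ℕ)} (hL : L ∈ reFamily) : ∃ H : Grammar, H.lang = L := by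
  obtain ⟨⟨T, hT⟩, hL⟩ := hL
  obtain ⟨c, hc⟩ := exists_code_re hL
  let : Inhabited PartrecToTM2.Λ' := ⟨PartrecToTM2.trNormal c PartrecToTM2.Cont'.halt⟩
  let : Fintype PartrecToTM2.K' :=
    ⟨{.main, .rev, .aux, .stack}, fun x => by cases x <;> simp⟩
  have s2 := PartrecToTM2.tr_supports c PartrecToTM2.Cont'.halt
  have s1 := TM2to1.tr_supports _ s2
  have s0 := TM1to0.tr_supports _ s1
  obtain ⟨G, hG⟩ := grammar_of_tm T _ s0 (Finset.finite_toSet _)
    (fun a => (PartrecToTM2.trNat (a + 1) ++ [PartrecToTM2.Γ'.cons]).reverse.map fun x =>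
      (false, Function.update (fun _ => none) PartrecToTM2.K'.main (some x)))
    (fun x => (true, x.2))
  refine ⟨G, Set.ext fun w => (hG w).trans ?_⟩
  have e : inp (Γ := TM2to1.Γ' PartrecToTM2.K' fun _ => PartrecToTM2.Γ')
      (fun a => (PartrecToTM2.trNat (a + 1) ++ [PartrecToTM2.Γ'.cons]).reverse.map fun x =>
      (false, Function.update (fun _ => none) PartrecToTM2.K'.main (some x)))
      (fun x => (true, x.2)) w.reverse =
      TM2to1.trInit PartrecToTM2.K'.main (PartrecToTM2.trList (w.map Nat.succ)) := by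
    unfold inp TM2to1.trInit
    rw [trList_flatMap, List.reverse_flatMap, List.map_flatMap]
    rfl
  have e2 : TM2.init PartrecToTM2.K'.main (PartrecToTM2.trList (w.map Nat.succ)) =
      PartrecToTM2.init c (w.map Nat.succ) := by
    unfold TM2.init PartrecToTM2.init
    congr 1
    funext k
    cases k <;> rfl
  rw [e, TM1to0.tr_eval, TM2to1.tr_eval_dom, ← hc]
  unfold TM2.eval
  rw [e2, PartrecToTM2.tr_eval]
  exact ⟨fun h => h.2, fun h => ⟨hT w ((hc w).1 h), h⟩⟩

abbrev Wit := List ℕ × List ℕ × List ℕ × List ℕ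

def chk (G : Grammar) (o : Option (List ℕ)) (s : Wit) : Option (List ℕ) :=
  if o = some (s.1 ++ s.2.1 ++ s.2.2.2) ∧ (s.2.1, s.2.2.1) ∈ G.P then
    some (s.1 ++ s.2.2.1 ++ s.2.2.2) else none

theorem chk_sound (G : Grammar) : ∀ (D : List Wit) (o : Option (List ℕ)) (w : List ℕ),
    D.foldl (chk G) o = some w → ∃ u, o = some u ∧ Relation.ReflTransGen G.Step u w
  | [], _, w, h => ⟨w, h, Relation.ReflTransGen.refl⟩
  | s :: D, o, w, h => by
    obtain ⟨u, h1, h2⟩ := chk_sound G D _ w h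
    unfold chk at h1
    split_ifs at h1 with h3
    exact ⟨_, h3.1, Relation.ReflTransGen.head
      ⟨s.1, s.2.2.2, _, h3.2, rfl, (Option.some.inj h1).symm⟩ h2⟩

theorem chk_complete {G : Grammar} {u w : List ℕ} (h : Relation.ReflTransGen G.Step u w) :
    ∃ D : List Wit, D.foldl (chk G) (some u) = some w := by
  induction h with
  | refl => exact ⟨[], rfl⟩
  | tail _ hs ih =>
    obtain ⟨D, hD⟩ := ih
    obtain ⟨x, y, p, hp, rfl, rfl⟩ := hs
    exact ⟨D ++ [(x, p.1, p.2, y)], by simp [hD, chk, hp]⟩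

theorem primrec_mem {α : Type} [Primcodable α] [DecidableEq α] (s : Finset α) :
    PrimrecPred fun a => a ∈ s := by
  induction s using Finset.induction_on with
  | empty => exact Primrec.primrecPred ((Primrec.const false).of_eq (by simp))
  | insert a s _ ih =>
    exact ((Primrec.eq.comp Primrec.id (Primrec.const a)).or ih).of_eq (by simp)

theorem re_of_grammar (G : Grammar) : G.lang ∈ reFamily := by
  refine ⟨⟨G.T, fun w hw => hw.1⟩, ?_⟩
  have h1 : Primrec₂ (chk G) := by
    have a1 : Primrec fun p : Option (List ℕ) × Wit => p.2.1 := Primrec.fst.comp Primrec.snd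
    have a2 : Primrec fun p : Option (List ℕ) × Wit => p.2.2.1 :=
      Primrec.fst.comp (Primrec.snd.comp Primrec.snd)
    have a3 : Primrec fun p : Option (List ℕ) × Wit => p.2.2.2.1 :=
      Primrec.fst.comp (Primrec.snd.comp (Primrec.snd.comp Primrec.snd))
    have a4 : Primrec fun p : Option (List ℕ) × Wit => p.2.2.2.2 :=
      Primrec.snd.comp (Primrec.snd.comp (Primrec.snd.comp Primrec.snd))
    exact Primrec.ite (PrimrecPred.and (Primrec.eq.comp Primrec.fst (Primrec.option_some.comp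
      (Primrec.list_append.comp (Primrec.list_append.comp a1 a2) a4)))
      ((primrec_mem G.P).comp (a2.pair a3)))
      (Primrec.option_some.comp (Primrec.list_append.comp (Primrec.list_append.comp a1 a3) a4))
      (Primrec.const none)
  have h2 : Primrec fun n : ℕ =>
      ((Encodable.decode (α := List Wit) n).getD []).foldl (chk G) (some [G.S]) :=
    Primrec.list_foldl (h := fun _ p => chk G p.1 p.2)
      (Primrec.option_getD.comp Primrec.decode (Primrec.const [])) (Primrec.const _)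
      (h1.comp (Primrec.fst.comp Primrec.snd) (Primrec.snd.comp Primrec.snd)).to₂
  have h3 : PrimrecPred fun p : List ℕ × ℕ => (∀ a ∈ p.1, a ∈ G.T) ∧
      ((Encodable.decode (α := List Wit) p.2).getD []).foldl (chk G) (some [G.S]) = some p.1 :=
    ((primrec_mem G.T).forall_mem_list.comp Primrec.fst).and
      (Primrec.eq.comp (h2.comp Primrec.snd) (Primrec.option_some.comp Primrec.fst))
  have h4 : Partrec fun w : List ℕ => Nat.rfind fun n => Part.some (decide ((∀ a ∈ w, a ∈ G.T) ∧
      ((Encodable.decode (α := List Wit) n).getD []).foldl (chk G) (some [G.S]) = some w)) :=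
    Partrec.rfind h3.computablePred.decide.partrec
  refine h4.dom_re.of_eq fun w => ?_
  rw [Nat.rfind_dom]
  simp only [Part.mem_some_iff, true_eq_decide_iff, Part.some_dom, implies_true, and_true]
  constructor
  · rintro ⟨n, k1, k2⟩
    obtain ⟨u, e, hu⟩ := chk_sound G _ _ _ k2
    cases e
    exact ⟨k1, hu⟩
  · rintro ⟨k1, k2⟩
    obtain ⟨D, hD⟩ := chk_complete k2
    exact ⟨Encodable.encode D, k1, by simpa using hD⟩

end Pool.Agent.MP_c20a26_lc

end
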